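import Pool.Agent.D0H90.SM.Stm5

set_option autoImplicit false

/-! Project SM (helper90), module NOE: the local ring is Noetherian at a map without automorphisms
(from TAU only). -/

namespace Pool.Agent.D0H49.SM

open MvPolynomial Matrix Pool.Agent.D0H90.SM

universe u

section
variable {n d : ℕ} {k : Type u} [Field k]

theorem invt_mul {P Q : Pol n d k} (h : Invt P Q) (U : Pol n d k) : Invt (P * U) (Q * U) := by
  intro A A' hA c
  have h1 := h A A' hA c
  simp only [map_mul]
  linear_combination (eval c U * eval (conj A A' c) U) * h1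

theorem eval_res (c : Cf n d → k) (Q : Pol n d k) : eval (rest c) (res c Q) = eval c Q := by
  have h : (eval (rest c)).comp (res c : Pol n d k →+* MvPolynomial (Rest n d) k) = eval c := by
    apply MvPolynomial.ringHom_ext
    · intro r
      simp [res]
    · intro a
      simp only [res, RingHom.comp_apply, RingHom.coe_coe, aeval_X, eval_X]
      unfold glue rest
      split_ifs <;> simp
  exact congrArg (fun f => f Q) h

/-- the membership of one element -/
theorem mem_of_rel (c : Cf n d → k) (τ : MvPolynomial (Rest n d) k → Rat n d k) (D : ℕ)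
    (h1 : ∀ R, R.totalDegree ≤ D → InvReg c (τ R))
    (h2 : ∀ S, S.totalDegree ≤ D → eval (rest c) S ≠ 0 → ¬ InvVan c (τ S))
    (h3 : ∀ (t : ℕ) (P : Fin t → Pol n d k) (Q : Pol n d k)
          (R : Fin t → MvPolynomial (Rest n d) k), (∀ j, Invt (P j) Q) → eval c Q ≠ 0 →
          (∀ j, (R j).totalDegree ≤ D) → ∑ j, res c (P j) * R j = 0 →
          ∑ j, algebraMap _ (Rat n d k) (P j) * τ (R j) = 0)
    (t : ℕ) (F : Fin t → locRing c) (h : locRing c) (P : Fin t → Pol n d k) (Q : Pol n d k)
    (P0 : Pol n d k) (hI : ∀ j, Invt (P j) Q) (hI0 : Invt P0 Q) (hQ : eval c Q ≠ 0)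
    (hF : ∀ j, (F j).1 * algebraMap _ (Rat n d k) Q = algebraMap _ (Rat n d k) (P j))
    (hh : h.1 * algebraMap _ (Rat n d k) Q = algebraMap _ (Rat n d k) P0)
    (S : MvPolynomial (Rest n d) k) (R : Fin t → MvPolynomial (Rest n d) k)
    (hSD : S.totalDegree ≤ D) (hRD : ∀ j, (R j).totalDegree ≤ D) (hS : eval (rest c) S ≠ 0)
    (hrel : res c P0 * S + ∑ j, res c (P j) * R j = 0) :
    h ∈ Ideal.span (Set.range F) := by
  have hinj : Function.Injective (algebraMap (Pol n d k) (Rat n d k)) :=
    IsFractionRing.injective _ _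
  have hQ0 : algebraMap (Pol n d k) (Rat n d k) Q ≠ 0 := by
    intro h0
    rw [← map_zero (algebraMap (Pol n d k) (Rat n d k))] at h0
    rw [hinj h0] at hQ
    simp at hQ
  have h4 := h3 (t + 1) (Fin.cons P0 P) Q (Fin.cons S R)
    (by
      intro j
      refine Fin.cases ?_ (fun j => ?_) j
      · exact hI0
      · exact hI j) hQ
    (by
      intro j
      refine Fin.cases ?_ (fun j => ?_) j
      · exact hSD
      · exact hRD j)
    (by
      rw [Fin.sum_univ_succ]
      simpa using hrel)
  rw [Fin.sum_univ_succ] at h4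
  simp only [Fin.cons_zero, Fin.cons_succ] at h4
  let T0 : locRing c := ⟨τ S, h1 S hSD⟩
  let T : Fin t → locRing c := fun j => ⟨τ (R j), h1 (R j) (hRD j)⟩
  have hu : IsUnit T0 := by
    by_contra hno
    rw [← mem_maxId_iff] at hno
    exact h2 S hSD hS hno
  have h5 : h * T0 + ∑ j, F j * T j = 0 := by
    apply Subtype.ext
    have h6 : (h * T0 + ∑ j, F j * T j).1 = h.1 * τ S + ∑ j, (F j).1 * τ (R j) := by
      push_cast
      rfl
    rw [h6]
    have h7 : algebraMap (Pol n d k) (Rat n d k) Q * (h.1 * τ S + ∑ j, (F j).1 * τ (R j)) = 0 := by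
      rw [← h4, ← hh, mul_add, Finset.mul_sum]
      congr 1
      · ring
      · refine Finset.sum_congr rfl fun j _ => ?_
        rw [← hF]
        ring
    exact (mul_eq_zero.mp h7).resolve_left hQ0
  obtain ⟨v, hv⟩ := hu
  have hy : ∑ j, F j * T j ∈ Ideal.span (Set.range F) :=
    Ideal.sum_mem _ fun j _ => Ideal.mul_mem_right _ _ (Ideal.subset_span ⟨j, rfl⟩)
  have hx : h * T0 ∈ Ideal.span (Set.range F) := by
    have h8 : h * T0 + ∑ j, F j * T j ∈ Ideal.span (Set.range F) := by
      rw [h5]
      exact zero_mem _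
    exact (Submodule.add_mem_iff_left _ hy).mp h8
  have h9 : h = h * T0 * ((v⁻¹ : (locRing c)ˣ) : locRing c) := by
    rw [← hv, mul_assoc, Units.mul_inv, mul_one]
  rw [h9]
  exact Ideal.mul_mem_right _ _ hx

end

theorem t_NOE : S_TAU.{u} → S_NOE.{u} := by
  classical
  intro hTAU k _ _ _ n d hn hd c hc hT hA
  refine ⟨fun I => ?_⟩
  -- the ideal of the restrictions
  let s : Set (MvPolynomial (Rest n d) k) := {r | ∃ (F : locRing c) (P Q : Pol n d k), F ∈ I ∧
    Invt P Q ∧ eval c Q ≠ 0 ∧ F.1 * algebraMap _ (Rat n d k) Q = algebraMap _ (Rat n d k) P ∧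
    r = res c P}
  have hfg : (Ideal.span s).FG := IsNoetherian.noetherian _
  obtain ⟨s', hs's, hs'⟩ := (Submodule.fg_span_iff_fg_span_finset_subset s).mp hfg
  have hs'2 : Ideal.span s = Ideal.span (s' : Set (MvPolynomial (Rest n d) k)) := hs'
  -- enumeration
  let t := s'.card
  let e : Fin t ≃ s' := s'.equivFin.symm
  have hch : ∀ j : Fin t, ∃ (F : locRing c) (P Q : Pol n d k), F ∈ I ∧
    Invt P Q ∧ eval c Q ≠ 0 ∧ F.1 * algebraMap _ (Rat n d k) Q = algebraMap _ (Rat n d k) P ∧
    ((e j : MvPolynomial (Rest n d) k)) = res c P := fun j => hs's (e j).2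
  choose F P Q hFI hInv hQ hF hres using hch
  have hle : Ideal.span (Set.range F) ≤ I := by
    rw [Ideal.span_le]
    rintro _ ⟨j, rfl⟩
    exact hFI j
  have hge : I ≤ Ideal.span (Set.range F) := by
    intro h hI
    obtain ⟨P0, Q0, hI0, hQ0, hh⟩ := h.2
    have hmem : res c P0 ∈ Ideal.span (s' : Set (MvPolynomial (Rest n d) k)) := by
      rw [← hs'2]
      exact Ideal.subset_span ⟨h, P0, Q0, hI, hI0, hQ0, hh, rfl⟩
    have hrange : (s' : Set (MvPolynomial (Rest n d) k)) = Set.range fun j => res c (P j) := by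
      ext x
      constructor
      · intro hx
        refine ⟨e.symm ⟨x, hx⟩, ?_⟩
        change res c (P (e.symm ⟨x, hx⟩)) = x
        rw [← hres, Equiv.apply_symm_apply]
      · rintro ⟨j, rfl⟩
        change res c (P j) ∈ _
        rw [← hres]
        exact (e j).2
    rw [hrange] at hmem
    obtain ⟨R, hR⟩ := (Submodule.mem_span_range_iff_exists_fun _).mp hmem
    -- common denominators
    let U : Pol n d k := ∏ i, Q i
    let W : Fin t → Pol n d k := fun j => ∏ i ∈ Finset.univ.erase j, Q i
    have hUW : ∀ j, Q j * W j = U := fun j => Finset.mul_prod_erase _ _ (Finset.mem_univ j)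
    have hU : eval c U ≠ 0 := by
      change eval c (∏ i, Q i) ≠ 0
      rw [map_prod]
      exact Finset.prod_ne_zero_iff.mpr fun i _ => hQ i
    let S : MvPolynomial (Rest n d) k := res c Q0
    let R' : Fin t → MvPolynomial (Rest n d) k := fun j => -(res c (Q j) * R j)
    obtain ⟨D, hD⟩ : ∃ D : ℕ, S.totalDegree ≤ D ∧ ∀ j, (R' j).totalDegree ≤ D := by
      refine ⟨max S.totalDegree (Finset.univ.sup fun j => (R' j).totalDegree), le_max_left _ _,
        fun j => le_trans ?_ (le_max_right _ _)⟩
      exact Finset.le_sup (f := fun j => (R' j).totalDegree) (Finset.mem_univ j)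
    obtain ⟨τ, h1, h2, h3⟩ := hTAU k n d hn hd c hc hT hA D
    refine mem_of_rel c τ D h1 h2 h3 t F h (fun j => P j * (Q0 * W j)) (Q0 * U) (P0 * U) ?_ ?_ ?_
      ?_ ?_ S R' hD.1 hD.2 ?_ ?_
    · intro j
      have h4 := invt_mul (hInv j) (Q0 * W j)
      have h5 : Q j * (Q0 * W j) = Q0 * U := by
        rw [← hUW j]
        ring
      rwa [h5] at h4
    · exact invt_mul hI0 U
    · rw [map_mul]
      exact mul_ne_zero hQ0 hU
    · intro j
      have h5 : Q0 * U = Q j * (Q0 * W j) := by
        rw [← hUW j]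
        ring
      rw [h5, map_mul, map_mul _ (P j), ← hF j]
      ring
    · rw [map_mul, map_mul, ← hh]
      ring
    · change eval (rest c) (res c Q0) ≠ 0
      rw [eval_res]
      exact hQ0
    · have h6 : res c (P0 * U) * S = ∑ j, res c (P j * (Q0 * W j)) * (res c (Q j) * R j) := by
        change res c (P0 * U) * res c Q0 = _
        rw [map_mul, ← hR, Finset.sum_mul, Finset.sum_mul]
        refine Finset.sum_congr rfl fun j _ => ?_
        rw [← hUW j]
        simp only [map_mul, smul_eq_mul]
        ring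
      rw [h6, ← Finset.sum_add_distrib]
      apply Finset.sum_eq_zero
      intro j _
      change res c (P j * (Q0 * W j)) * (res c (Q j) * R j) +
        res c (P j * (Q0 * W j)) * -(res c (Q j) * R j) = 0
      ring
  have heq : I = Ideal.span (Set.range F) := le_antisymm hge hle
  rw [heq]
  exact Submodule.fg_span (Set.finite_range F)

end Pool.Agent.D0H49.SM
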